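import Pool.Agent.H439.FQ.Var

/-!
# The series of the residue formula over the quadratic extensions `K(√d)`

Let `f : X → Y` be a fibration over a number field `K` of degree `n`, and let
`F_K(s) = ∑_v B_v(X) (log q_v) q_v^{-s}` be the series whose residue at `s = 2` should be the rank of
`NS(X/K(Y))`.  Put `a_v = B_v(X) / q_v`; these numbers are bounded (Deligne), `|a_v| ≤ M`.  For a squarefree
integer `d ≠ 1` let `χ_d` be the quadratic character of `ℚ(√d)`.  Over the extension `K(√d)` the primes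
`v` with `χ_d(q_v) = 1` count twice, and those with `χ_d(q_v) = -1` have norm `q_v²`.  Hence
`F_{K(√d)}(s) - F_K(s) = G_d(s - 1) + (bounded near s = 2, uniformly in d)`, where
`G_d(s) = ∑_v χ_d(q_v) a_v (log q_v) q_v^{-s}`, up to the terms at the ramified primes of `K`.
The residue formula says that `G_d` has the residue
`rank NS(X/K(√d)(Y)) - rank NS(X/K(Y))` at `s = 1`.  For a general fibration nothing is known about `G_d`
outside of the half-plane `Re s > 1` of absolute convergence, for any single `d`.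

The theorem is about all quadratic extensions together.

* (1) `∑_{|d| ≤ x} |G_d(1 + ε)|² ≤ C (n M)² (x + ε^{-2})` for all `ε ≤ 1/2`, without any relation between `x`
  and `ε`, with an absolute constant `C`.  (Multiply by `ε²` and let `ε → 0`: one recovers, up to the constant,
  the Bessel inequality for the residues of the `G_d`, which is in the library.)
* (2) The limit law: if `ε → 0` and `x ε² → ∞`, then the distribution of `(G_{1,d}, ..., G_{r,d})(1 + ε)` over
  the squarefree `|d| ≤ x`, for several fibrations or the series of one fibration at several shifted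
  points `s + i t_k`, tends to a probability measure `ν` on `ℂ^r`, the distribution at `s = 1` of the random
  series in which the `χ_d(p)` are replaced by independent random variables with the values `0, 1, -1`; also
  the averages of all continuous functions `f` with `|f(z)| ≤ D (1 + |z|²)` converge to `∫ f dν`.  The
  condition `x ε² → ∞` cannot be weakened for such functions `f`: if `a_v = χ_{-1}(q_v)`, then the term
  `d = -1` alone contributes about `1/(x ε²)` to the mean square.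
* (3) The mean value of the `k`-th coordinate of `ν` is `∑_p ρ_p B_p` and its variance is
  `∑_p (ρ_p |A_p|² + ρ_p (1 - ρ_p) |B_p|²)`, where `A_p` and `B_p` are the sums of `a_v (log q_v) / q_v` over
  the `v` above `p` for which `q_v` is not a square and is a square, and `ρ_p = p/(p+1)`, `ρ_2 = 1/3`, is the
  proportion of the `d` for which `p` is unramified in `ℚ(√d)`.

The theorem is stated for arbitrary bounded coefficients `a_v`.
-/

set_option autoImplicit false

namespace Pool.Agent.Results.MP_6090f9_nt.QuadraticExtensionLaw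

open NumberField IsDedekindDomain MeasureTheory Filter Topology

section
variable {K : Type} [Field K] [NumberField K]

/-- The series `∑_v a_v g(q_v) (log q_v) q_v^{-s}` over the primes `v` of `K`, where `q_v` is the norm of
`v` and `g` is a function on the positive integers. -/
noncomputable def G (a : HeightOneSpectrum (𝓞 K) → ℂ) (g : ℕ → ℂ) (s : ℂ) : ℂ :=
  ∑' v : HeightOneSpectrum (𝓞 K), a v * (g (Ideal.absNorm v.asIdeal) *
    (Real.log (Ideal.absNorm v.asIdeal) * ((Ideal.absNorm v.asIdeal : ℕ) : ℂ) ^ (-s)))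

/-- The sum of the `a_v (log q_v) / q_v` over the `v` above `p` for which `q_v` is not a square. -/
noncomputable def A (a : HeightOneSpectrum (𝓞 K) → ℂ) (p : ℕ) : ℂ :=
  ∑ᶠ v ∈ {v : HeightOneSpectrum (𝓞 K) | (Ideal.absNorm v.asIdeal).minFac = p ∧
    ¬ IsSquare (Ideal.absNorm v.asIdeal)}, a v *
      ((Real.log (Ideal.absNorm v.asIdeal) / Ideal.absNorm v.asIdeal : ℝ) : ℂ)

/-- The sum of the `a_v (log q_v) / q_v` over the `v` above `p` for which `q_v` is a square. -/
noncomputable def B (a : HeightOneSpectrum (𝓞 K) → ℂ) (p : ℕ) : ℂ :=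
  ∑ᶠ v ∈ {v : HeightOneSpectrum (𝓞 K) | (Ideal.absNorm v.asIdeal).minFac = p ∧
    IsSquare (Ideal.absNorm v.asIdeal)}, a v *
      ((Real.log (Ideal.absNorm v.asIdeal) / Ideal.absNorm v.asIdeal : ℝ) : ℂ)

end

/-- The quadratic character of `ℚ(√d)`, `d` squarefree, at the prime `p`: the value is `1`, `-1` or `0`
according as `p` is split, inert or ramified. -/
def atPrime (d : ℤ) (p : ℕ) : ℤ :=
  if p = 2 then (if d % 8 = 1 then 1 else if d % 8 = 5 then -1 else 0) else jacobiSym d p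

/-- The quadratic character of `ℚ(√d)`, as a completely multiplicative function on the positive
integers. -/
noncomputable def quad (d : ℤ) (n : ℕ) : ℂ :=
  n.factorization.prod fun p k => ((atPrime d p : ℤ) : ℂ) ^ k

open Classical in
/-- The squarefree integers `d ≠ 1` with `|d| ≤ x`. -/
noncomputable def fields (x : ℕ) : Finset ℤ :=
  (Finset.Icc (-(x : ℤ)) x).filter fun d => Squarefree d ∧ d ≠ 1

/-- The average of `f(G_{1,d}(s), ..., G_{r,d}(s))` over the squarefree `d ≠ 1` with `|d| ≤ x`. -/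
noncomputable def mean {K : Type} [Field K] [NumberField K] {r : ℕ} (f : (Fin r → ℂ) → ℝ)
    (a : Fin r → HeightOneSpectrum (𝓞 K) → ℂ) (s : ℂ) (x : ℕ) : ℝ :=
  ((fields x).card : ℝ)⁻¹ * ∑ d ∈ fields x, f fun k => G (a k) (quad d) s

/-- The proportion of the `d` for which `p` is unramified in `ℚ(√d)`. -/
noncomputable def rho (p : ℕ) : ℝ := if p = 2 then 1 / 3 else (p : ℝ) / (p + 1)

/-- The sequences `ω = (ω_p)` of points of the unit interval, indexed by the primes, with the product of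
the uniform measures: the `ω_p` are independent and uniformly distributed. -/
noncomputable def unif : Measure (Nat.Primes → unitInterval) :=
  Measure.infinitePi fun _ => (volume : Measure unitInterval)

/-- `X_p`: the values `1`, `-1`, `0` with the probabilities `ρ_p / 2`, `ρ_p / 2`, `1 - ρ_p`. -/
noncomputable def atPrimeRandom (ω : Nat.Primes → unitInterval) (p : ℕ) : ℤ :=
  if h : p.Prime then
    (if ((ω ⟨p, h⟩ : unitInterval) : ℝ) < rho p / 2 then 1
      else if ((ω ⟨p, h⟩ : unitInterval) : ℝ) < rho p then -1 else 0)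
  else 1

/-- The random multiplicative function `∏_p X_p^{v_p(n)}`. -/
noncomputable def random (ω : Nat.Primes → unitInterval) (n : ℕ) : ℂ :=
  n.factorization.prod fun p k => ((atPrimeRandom ω p : ℤ) : ℂ) ^ k

/-- The expected value of `f` at the vector of the random series. -/
noncomputable def expect {K : Type} [Field K] [NumberField K] {r : ℕ} (f : (Fin r → ℂ) → ℝ)
    (a : Fin r → HeightOneSpectrum (𝓞 K) → ℂ) (s : ℂ) : ℝ :=
  ∫ ω, f (fun k => G (a k) (random ω) s) ∂unif

section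
open Pool.Agent.H439.LS Pool.Agent.H439.LL Pool.Agent.H439.QD Pool.Agent.H439.FA Pool.Agent.H439.FQ
  Pool.Agent.TH339.MP

variable {K : Type} [Field K] [NumberField K]

lemma G_eq (a : HeightOneSpectrum (𝓞 K) → ℂ) (g : ℕ → ℂ) (ε : ℝ) :
    G a g (1 + ε) = FS a g ε := by
  unfold G FS ft
  apply tsum_congr
  intro v
  have hpos : 0 < nm v := nm_pos v
  change a v * (g (nm v) * (((Real.log (nm v) : ℝ) : ℂ) * ((nm v : ℕ) : ℂ) ^ (-(1 + (ε : ℂ))))) =
    a v * (g (nm v) * ((Pool.Agent.H439.FA.wt ε (nm v) : ℝ) : ℂ))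
  unfold Pool.Agent.H439.FA.wt
  have e : ((((nm v : ℝ) ^ (-(1 + ε)) : ℝ)) : ℂ) = ((nm v : ℕ) : ℂ) ^ (-(1 + (ε : ℂ))) := by
    rw [Complex.ofReal_cpow (Nat.cast_nonneg _)]
    push_cast
    rfl
  rw [Complex.ofReal_mul, e]

lemma quad_eq (d : ℤ) : quad d = qg d 0 := by
  funext n
  unfold qg Pool.Agent.H439.LS.ph
  simp only [neg_zero, Complex.ofReal_zero, zero_mul, Complex.cpow_zero, mul_one]
  rfl

lemma rho_eq (p : ℕ) : rho p = Pool.Agent.H439.QD.rho p := rfl

lemma random_eq (ω : Nat.Primes → unitInterval) :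
    random ω = qX (fun n ω => rqf ω n) 0 ω := by
  funext n
  unfold qX Pool.Agent.H439.LS.ph random
  simp only [neg_zero, Complex.ofReal_zero, zero_mul, Complex.cpow_zero, mul_one]
  unfold rqf
  rw [Finsupp.prod, Finsupp.prod]
  push_cast
  apply Finset.prod_congr rfl
  intro p _
  rfl

lemma minFac_nm (v : HeightOneSpectrum (𝓞 K)) :
    (Ideal.absNorm v.asIdeal).minFac = ((pr v : Nat.Primes) : ℕ) := by
  change (nm v).minFac = _
  rw [nm_eq]
  exact (pr v).2.pow_minFac (dg_pos v).ne'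

lemma isSquare_nm (v : HeightOneSpectrum (𝓞 K)) :
    IsSquare (Ideal.absNorm v.asIdeal) ↔ Even (dg v) := by
  change IsSquare (nm v) ↔ _
  rw [nm_eq]
  constructor
  · rintro ⟨r, hr⟩
    have h1 : (((pr v : Nat.Primes) : ℕ) ^ dg v).factorization (pr v : Nat.Primes) = dg v := by
      rw [(pr v).2.factorization_pow]
      simp
    have hr0 : r ≠ 0 := by
      rintro rfl
      have := pow_pos (pr v).2.pos (dg v)
      omega
    rw [hr, Nat.factorization_mul hr0 hr0] at h1
    exact ⟨_, h1.symm⟩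
  · rintro ⟨k, hk⟩
    exact ⟨((pr v : Nat.Primes) : ℕ) ^ k, by rw [hk, pow_add]⟩

lemma wt_zero (n : ℕ) : Pool.Agent.H439.FA.wt 0 n = Real.log n / n := by
  unfold Pool.Agent.H439.FA.wt
  rw [add_zero, Real.rpow_neg_one, div_eq_mul_inv]

lemma A_eq (a : HeightOneSpectrum (𝓞 K) → ℂ) {p : ℕ} (hp : p.Prime) : A a p = AP a p := by
  classical
  unfold A AP
  rw [dif_pos hp]
  rw [finsum_mem_eq_sum_of_inter_support_eq (t := (Sp ⟨p, hp⟩).filter (fun v => ¬ Even (dg v)))]
  · apply Finset.sum_congr rfl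
    intro v _
    rw [wt_zero]
    rfl
  · congr 1
    ext v
    rw [Finset.coe_filter, Set.mem_ofPred_eq, Set.mem_ofPred_eq, mem_Sp, minFac_nm, isSquare_nm]
    constructor
    · rintro ⟨h1, h2⟩
      exact ⟨Subtype.ext h1, h2⟩
    · rintro ⟨h1, h2⟩
      exact ⟨by rw [h1], h2⟩

lemma B_eq (a : HeightOneSpectrum (𝓞 K) → ℂ) {p : ℕ} (hp : p.Prime) : B a p = BP a p := by
  classical
  unfold B BP
  rw [dif_pos hp]
  rw [finsum_mem_eq_sum_of_inter_support_eq (t := (Sp ⟨p, hp⟩).filter (fun v => Even (dg v)))]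
  · apply Finset.sum_congr rfl
    intro v _
    rw [wt_zero]
    rfl
  · congr 1
    ext v
    rw [Finset.coe_filter, Set.mem_ofPred_eq, Set.mem_ofPred_eq, mem_Sp, minFac_nm, isSquare_nm]
    constructor
    · rintro ⟨h1, h2⟩
      exact ⟨Subtype.ext h1, h2⟩
    · rintro ⟨h1, h2⟩
      exact ⟨by rw [h1], h2⟩

/-- the mean square over the quadratic extensions -/
lemma mean_sq : ∃ (C : ℝ) (x₀ : ℕ), 0 ≤ C ∧ ∀ (K : Type) [Field K] [NumberField K]
    (a : HeightOneSpectrum (𝓞 K) → ℂ) (M : ℝ), 0 ≤ M → (∀ v, ‖a v‖ ≤ M) →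
    ∀ x : ℕ, x₀ ≤ x → ∀ ε : ℝ, 0 < ε → ε ≤ 1 / 2 →
      ∑ d ∈ SF x, ‖FS a (qg d 0) ε‖ ^ 2 ≤
        C * ((Module.finrank ℚ K : ℝ) * M) ^ 2 * (x + 1 / ε ^ 2) := by
  classical
  have hCT := CT_pos
  obtain ⟨X₀, hX₀⟩ := tail_q (le_refl 2)
  refine ⟨6 * (3073 + 128 * c₂ ^ 2) + 48 * CT, max X₀ 1, by positivity,
    fun K _ _ a M hM ha x hx ε hε hε1 => ?_⟩
  set m : ℝ := (Module.finrank ℚ K : ℝ) * M with hm
  have hm0 : 0 ≤ m := by positivity
  have hx1 : (1 : ℝ) ≤ x := by exact_mod_cast (le_max_right _ _).trans hx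
  have h1 := hX₀ x ((le_max_left _ _).trans hx) ε hε hε1 K a M hM ha
  rw [← hm] at h1
  have hb : bY K M 2 ≤ m := by
    unfold bY
    have h2 : ∀ v ∈ Vy K ((2 : ℕ) : ℝ), M * (Real.log (nm v) / nm v) ≤ M := by
      intro v _
      have hn : (0 : ℝ) < nm v := by exact_mod_cast nm_pos v
      apply mul_le_of_le_one_right hM
      rw [div_le_one hn]
      exact (Real.log_le_sub_one_of_pos hn).trans (by linarith)
    refine (Finset.sum_le_sum h2).trans ?_
    rw [Finset.sum_const, nsmul_eq_mul, hm]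
    apply mul_le_mul_of_nonneg_right _ hM
    have h3 := card_Sp (K := K) ⟨2, Nat.prime_two⟩
    have h4 : Vy K ((2 : ℕ) : ℝ) ⊆ Sp ⟨2, Nat.prime_two⟩ := by
      intro v hv
      rw [mem_Vy] at hv
      rw [mem_Sp]
      apply Subtype.ext
      have h5 : nm v ≤ 2 := by exact_mod_cast hv
      have h6 : ((pr v : Nat.Primes) : ℕ) ≤ nm v := by
        rw [nm_eq]
        exact Nat.le_self_pow (dg_pos v).ne' _
      have h7 := (pr v).2.two_le
      change ((pr v : Nat.Primes) : ℕ) = 2
      omega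
    have h5 : ((Vy K ((2 : ℕ) : ℝ)).card : ℝ) ≤ (Sp (K := K) ⟨2, Nat.prime_two⟩).card := by
      exact_mod_cast Finset.card_le_card h4
    exact h5.trans (by exact_mod_cast h3)
  have hb0 : 0 ≤ bY K M 2 := (norm_nonneg _).trans (norm_FY hM ha (pm_qg 2 0) (le_refl (0 : ℝ)) 2)
  have hpt : ∀ d ∈ SF x, ‖FS a (qg d 0) ε‖ ^ 2 ≤
      2 * ‖FS a (qg d 0) ε - FY a (qg d 0) ε 2‖ ^ 2 + 2 * m ^ 2 := by
    intro d _
    have h2 := (norm_FY hM ha (pm_qg d 0) hε.le 2).trans hb
    have h3 : ‖FS a (qg d 0) ε‖ ≤ ‖FS a (qg d 0) ε - FY a (qg d 0) ε 2‖ + m := by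
      have h4 := norm_add_le (FS a (qg d 0) ε - FY a (qg d 0) ε 2) (FY a (qg d 0) ε 2)
      rw [sub_add_cancel] at h4
      linarith
    have h4 := pow_le_pow_left₀ (norm_nonneg _) h3 2
    nlinarith [sq_nonneg (‖FS a (qg d 0) ε - FY a (qg d 0) ε 2‖ - m)]
  refine (Finset.sum_le_sum hpt).trans ?_
  rw [Finset.sum_add_distrib, ← Finset.mul_sum, Finset.sum_const, nsmul_eq_mul]
  have hcard : ((SF x).card : ℝ) ≤ 3 * x := by
    have h2 : (SF x).card ≤ (IX x).card := by
      apply Finset.card_le_card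
      exact Finset.filter_subset _ _
    rw [card_IX] at h2
    have h3 : ((SF x).card : ℝ) ≤ ((2 * x + 1 : ℕ) : ℝ) := by exact_mod_cast h2
    push_cast at h3
    linarith
  have hdl : dl m 2 ≤ m ^ 2 * (3072 + 128 * c₂ ^ 2) := by
    unfold dl
    apply mul_le_mul_of_nonneg_left _ (by positivity)
    apply add_le_add
    · apply div_le_self (by norm_num)
      rw [Real.one_le_sqrt]
      norm_num
    · apply mul_le_of_le_one_right (by positivity)
      exact Real.rpow_le_one_of_one_le_of_nonpos (by norm_num) (by norm_num)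
  have hdl0 : 0 ≤ dl m 2 := dl_nonneg _ _
  have h5 : ((SF x).card : ℝ) * dl m 2 ≤ (3 * x) * (m ^ 2 * (3072 + 128 * c₂ ^ 2)) :=
    mul_le_mul hcard hdl hdl0 (by positivity)
  have h6 : ((SF x).card : ℝ) * (2 * m ^ 2) ≤ (3 * x) * (2 * m ^ 2) :=
    mul_le_mul_of_nonneg_right hcard (by positivity)
  have h7 : 24 * CT * m ^ 2 / ε ^ 2 = 24 * CT * m ^ 2 * (1 / ε ^ 2) := by ring
  rw [h7] at h1
  have h8 : 0 ≤ 1 / ε ^ 2 := by positivity
  have h9 : 0 ≤ (6 * (3073 + 128 * c₂ ^ 2)) * m ^ 2 * (1 / ε ^ 2) := by positivity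
  have h10 : 0 ≤ 48 * CT * m ^ 2 * x := by positivity
  have e : (6 * (3073 + 128 * c₂ ^ 2) + 48 * CT) * m ^ 2 * (x + 1 / ε ^ 2) =
      2 * ((3 * x) * (m ^ 2 * (3072 + 128 * c₂ ^ 2))) + (3 * x) * (2 * m ^ 2) +
        48 * CT * m ^ 2 * (1 / ε ^ 2) + (6 * (3073 + 128 * c₂ ^ 2)) * m ^ 2 * (1 / ε ^ 2) +
        48 * CT * m ^ 2 * x := by ring
  rw [e]
  linarith

/-- **The series of the residue formula over the quadratic extensions.** -/
theorem result : ∃ (C : ℝ) (x₀ : ℕ), ∀ (K : Type) [Field K] [NumberField K] (r : ℕ)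
    (a : Fin r → HeightOneSpectrum (𝓞 K) → ℂ) (M : ℝ), 0 ≤ M → (∀ k v, ‖a k v‖ ≤ M) →
    -- (1) the mean square
    (∀ (k : Fin r) (x : ℕ), x₀ ≤ x → ∀ ε : ℝ, 0 < ε → ε ≤ 1 / 2 →
      ∑ d ∈ fields x, ‖G (a k) (quad d) (1 + ε)‖ ^ 2 ≤
        C * ((Module.finrank ℚ K : ℝ) * M) ^ 2 * (x + 1 / ε ^ 2)) ∧
    ∃ ν : Measure (Fin r → ℂ), IsProbabilityMeasure ν ∧
      -- (2) the limit law
      (∀ f : (Fin r → ℂ) → ℝ, Continuous f → (∃ D : ℝ, ∀ z, |f z| ≤ D * (1 + ‖z‖ ^ 2)) →
        Integrable f ν ∧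
        (∀ (ι : Type) (l : Filter ι) (x : ι → ℕ) (ε : ι → ℝ), Tendsto ε l (𝓝[>] 0) →
          Tendsto (fun i => x i * ε i ^ 2) l atTop →
          Tendsto (fun i => mean f a (1 + (ε i : ℂ)) (x i)) l (𝓝 (∫ z, f z ∂ν))) ∧
        Tendsto (fun ε : ℝ => expect f a (1 + (ε : ℂ))) (𝓝[>] 0) (𝓝 (∫ z, f z ∂ν))) ∧
      -- (3) the mean value and the variance
      (∀ k : Fin r, Tendsto (fun P : ℕ => ∑ p ∈ (Finset.range (P + 1)).filter Nat.Prime,
        (rho p : ℂ) * B (a k) p) atTop (𝓝 (∫ z, z k ∂ν))) ∧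
      (∀ k : Fin r, Tendsto (fun P : ℕ => ∑ p ∈ (Finset.range (P + 1)).filter Nat.Prime,
        (rho p * ‖A (a k) p‖ ^ 2 + rho p * (1 - rho p) * ‖B (a k) p‖ ^ 2)) atTop
          (𝓝 (∫ z, ‖z k - ∫ w, w k ∂ν‖ ^ 2 ∂ν))) := by
  classical
  obtain ⟨C, x₀, hC, hms⟩ := mean_sq
  refine ⟨C, x₀, fun K _ _ r a M hM ha => ⟨?_, ?_⟩⟩
  · intro k x hx ε hε hε1
    simp_rw [G_eq, quad_eq]
    exact hms K (a k) M hM (ha k) x hx ε hε hε1
  · obtain ⟨Z, hZm, hZ2, hZY, hlaw⟩ := exists_law_q hM ha
    refine ⟨pmu.map Z, Measure.isProbabilityMeasure_map hZm.aemeasurable, ?_, ?_, ?_⟩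
    · rintro f hf ⟨D, hD⟩
      have hint : ∫ z, f z ∂(pmu.map Z) = ∫ ω, f (Z ω) ∂pmu :=
        integral_map hZm.aemeasurable hf.measurable.aestronglyMeasurable
      rw [hint]
      refine ⟨?_, ?_, ?_⟩
      · rw [integrable_map_measure hf.measurable.aestronglyMeasurable hZm.aemeasurable]
        exact integrable_growth hf hD hZm hZ2
      · intro ι l x ε hε hxε
        rw [Metric.tendsto_nhds]
        intro η hη
        obtain ⟨⟨X₀, T₀, ε₀, hε₀, h1⟩, -⟩ := hlaw f hf D hD (η / 2) (half_pos hη)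
        filter_upwards [hε.eventually (Ioc_mem_nhdsGT (lt_min hε₀ one_pos)),
          hxε.eventually_ge_atTop (max T₀ X₀)] with i hi1 hi2
        have hε1 : ε i ≤ 1 := hi1.2.trans (min_le_right _ _)
        have hε0 : 0 < ε i := hi1.1
        have hx : X₀ ≤ x i := by
          have h2 : (x i : ℝ) * ε i ^ 2 ≤ x i := by
            apply mul_le_of_le_one_right (Nat.cast_nonneg _)
            exact pow_le_one₀ hε0.le hε1
          have h3 : (X₀ : ℝ) ≤ x i := ((le_max_right _ _).trans hi2).trans h2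
          exact_mod_cast h3
        rw [Real.dist_eq]
        have h2 := h1 (x i) (ε i) hx hε0 (hi1.2.trans (min_le_left _ _))
          ((le_max_left _ _).trans hi2)
        unfold mean
        simp_rw [G_eq, quad_eq]
        change |((SF (x i)).card : ℝ)⁻¹ * ∑ d ∈ SF (x i), f (FSV a (qg d 0) (ε i)) - _| < η
        linarith
      · rw [Metric.tendsto_nhds]
        intro η hη
        obtain ⟨-, ε₀, hε₀, h1⟩ := hlaw f hf D hD (η / 2) (half_pos hη)
        filter_upwards [Ioc_mem_nhdsGT hε₀] with ε hε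
        rw [Real.dist_eq]
        unfold expect
        simp_rw [G_eq, random_eq]
        have := h1 ε hε.1 hε.2 _ pmu _ model_q
        change |∫ ω, f (FSV a (qX (fun n ω => rqf ω n) 0 ω) ε) ∂pmu - _| < η
        linarith
    · intro k
      have hZk : Measurable fun ω => Z ω k := (measurable_pi_apply k).comp hZm
      have hZk2 : Integrable (fun ω => ‖Z ω k‖ ^ 2) pmu := by
        refine hZ2.mono' (hZk.norm.pow_const 2).aestronglyMeasurable
          (Eventually.of_forall fun ω => ?_)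
        rw [norm_pow, norm_norm]
        exact pow_le_pow_left₀ (norm_nonneg _) (norm_le_pi_norm _ k) 2
      have h1 := (mean_var hM (ha k) model_q hZk hZk2 (fun Y hY => hZY Y hY k)).1
      have hint : ∫ z, z k ∂(pmu.map Z) = ∫ ω, Z ω k ∂pmu := by
        rw [integral_map hZm.aemeasurable]
        exact (measurable_pi_apply k).aestronglyMeasurable
      rw [hint]
      refine h1.congr fun P => ?_
      apply Finset.sum_congr rfl
      intro p hp
      rw [B_eq (a k) (Finset.mem_filter.1 hp).2, rho_eq]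
    · intro k
      have hZk : Measurable fun ω => Z ω k := (measurable_pi_apply k).comp hZm
      have hZk2 : Integrable (fun ω => ‖Z ω k‖ ^ 2) pmu := by
        refine hZ2.mono' (hZk.norm.pow_const 2).aestronglyMeasurable
          (Eventually.of_forall fun ω => ?_)
        rw [norm_pow, norm_norm]
        exact pow_le_pow_left₀ (norm_nonneg _) (norm_le_pi_norm _ k) 2
      have h1 := (mean_var hM (ha k) model_q hZk hZk2 (fun Y hY => hZY Y hY k)).2
      have hint : ∫ z, z k ∂(pmu.map Z) = ∫ ω, Z ω k ∂pmu := by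
        rw [integral_map hZm.aemeasurable]
        exact (measurable_pi_apply k).aestronglyMeasurable
      have hint2 : ∫ z, ‖z k - ∫ w, w k ∂(pmu.map Z)‖ ^ 2 ∂(pmu.map Z) =
          ∫ ω, ‖Z ω k - ∫ ω', Z ω' k ∂pmu‖ ^ 2 ∂pmu := by
        rw [hint, integral_map hZm.aemeasurable]
        exact (((measurable_pi_apply k).sub_const _).norm.pow_const 2).aestronglyMeasurable
      rw [hint2]
      refine h1.congr fun P => ?_
      apply Finset.sum_congr rfl
      intro p hp
      rw [A_eq (a k) (Finset.mem_filter.1 hp).2, B_eq (a k) (Finset.mem_filter.1 hp).2, rho_eq]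

end

end Pool.Agent.Results.MP_6090f9_nt.QuadraticExtensionLaw
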